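import Pool.Agent.H37.CTL.Stmts

/-!
# Board `ctl`, row T53 (helper52): factorization of the linearized polynomial
-/

set_option autoImplicit false

namespace Pool.CND

open Finset Polynomial

private theorem t53_root {F L : Type} [Field F] [Field L] (φ : F →+* L) (q : ℕ) (hq : 2 ≤ q)
    (hF : Nat.card F = q) (z : L) (hz : z ^ q = z) : ∃ c : F, z = φ c := by
  classical
  have hfin : Finite F := Nat.finite_of_card_ne_zero (by omega)
  have := Fintype.ofFinite F
  have hcard : Fintype.card F = q := by rw [← Nat.card_eq_fintype_card, hF]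
  have hpow : ∀ a : F, a ^ q = a := by
    intro a
    rw [← hcard]
    exact FiniteField.pow_card a
  by_contra hne
  push Not at hne
  have hnotin : z ∉ (Finset.univ : Finset F).image φ := by
    intro h
    obtain ⟨c, -, hc⟩ := Finset.mem_image.mp h
    exact hne c hc.symm
  have hc1 : (insert z ((Finset.univ : Finset F).image φ)).card = q + 1 := by
    rw [Finset.card_insert_of_notMem hnotin, Finset.card_image_of_injective _ φ.injective,
      Finset.card_univ, hcard]
  have hdeg : (Polynomial.X ^ q - Polynomial.X : Polynomial L).natDegree = q :=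
    FiniteField.X_pow_card_sub_X_natDegree_eq L (by omega)
  have h0 : (Polynomial.X ^ q - Polynomial.X : Polynomial L) = 0 := by
    apply Polynomial.eq_zero_of_natDegree_lt_card_of_eval_eq_zero' _
      (insert z ((Finset.univ : Finset F).image φ))
    · intro i hi
      rcases Finset.mem_insert.mp hi with h | h
      · rw [h]
        simp [hz]
      · obtain ⟨c, -, hc⟩ := Finset.mem_image.mp h
        rw [← hc]
        simp only [eval_sub, eval_pow, eval_X]
        rw [← map_pow, hpow, sub_self]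
    · rw [hdeg, hc1]
      omega
  rw [h0, Polynomial.natDegree_zero] at hdeg
  omega

theorem t53_thm : S_T53 := by
  intro p k F L _ _ _ _ _ _ f q a b t X S₂ S₃ Q₃ hp hc hf hq hFq hS h2 h3 h4
  have : Fact p.Prime := ⟨hp⟩
  have : CharP k p := hc
  have : CharP L p := charP_of_injective_algebraMap (algebraMap k L).injective p
  have hq2 : 2 ≤ q := by
    rw [hq]
    calc 2 ≤ p := hp.two_le
      _ = p ^ 1 := (pow_one p).symm
      _ ≤ p ^ f := Nat.pow_le_pow_right hp.pos hf
  have hfin : Finite F := Nat.finite_of_card_ne_zero (by omega)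
  have hpow : ∀ a : F, a ^ q = a := by
    intro a
    have := Fintype.ofFinite F
    rw [← hFq, Nat.card_eq_fintype_card]
    exact FiniteField.pow_card a
  have hsub : ∀ u v : L, (u - v) ^ q = u ^ q - v ^ q := by
    intro u v
    rw [hq]
    exact sub_pow_char_pow u v f
  have hp1 : ∀ u : L, u ^ (q - 1) * u = u ^ q := by
    intro u
    rw [← pow_succ]
    congr 1
    omega
  have hpq2 : ∀ u : L, u ^ q ^ 2 = (u ^ q) ^ q := by
    intro u
    rw [← pow_mul, pow_two]
  have hpq3 : ∀ u : L, u ^ q ^ 3 = ((u ^ q) ^ q) ^ q := by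
    intro u
    rw [← pow_mul, ← pow_mul]
    congr 1
    ring
  set φ : F →+* L := (algebraMap k L).comp (algebraMap F k) with hφ
  have hind : ∀ c : Fin 3 → F, φ (c 0) * X 0 + φ (c 1) * X 1 + φ (c 2) * X 2 = 0 → c = 0 := by
    intro c hc
    apply hS.ind c
    rw [Fin.sum_univ_three]
    exact hc
  have hX0 : X 0 ≠ 0 := by
    intro h
    have := hind ![1, 0, 0] (by simp [h])
    have h1 := congrFun this 0
    simp at h1
  set x := X 0 ^ (q - 1) with hx
  have hx0 : x ≠ 0 := pow_ne_zero _ hX0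
  have hxX : x * X 0 = X 0 ^ q := hp1 (X 0)
  -- kernel of R_1
  have hker : ∀ w : L, w ^ q = x * w → ∃ d : F, w = φ d * X 0 := by
    intro w hw
    have h5 : (w / X 0) ^ q = w / X 0 := by
      rw [div_pow, hw, ← hxX]
      field_simp
    obtain ⟨d, hd⟩ := t53_root φ q hq2 hFq _ h5
    exact ⟨d, by rw [← hd]; field_simp⟩
  have hS2 : S₂ ≠ 0 := by
    intro h
    rw [h] at h2
    obtain ⟨d, hd⟩ := hker (X 1) (by linear_combination -h2)
    have := hind ![-d, 1, 0] (by simp [hd])
    have h1 := congrFun this 1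
    simp at h1
  set y := S₂ ^ (q - 1) with hy
  have hyS : y * S₂ = S₂ ^ q := hp1 S₂
  have hQ3 : Q₃ ≠ 0 := by
    intro h
    rw [h] at h4
    have h5 : (S₃ / S₂) ^ q = S₃ / S₂ := by
      rw [div_pow, div_eq_div_iff (pow_ne_zero _ hS2) hS2]
      rw [← hyS]
      linear_combination -S₂ * h4
    obtain ⟨c, hc⟩ := t53_root φ q hq2 hFq _ h5
    have h6 : S₃ = φ c * S₂ := by rw [← hc]; field_simp
    obtain ⟨d, hd⟩ := hker (X 2 - φ c * X 1) (by
      rw [hsub, mul_pow, ← map_pow, hpow]
      linear_combination h6 - h3 + φ c * h2)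
    have := hind ![-d, -c, 1] (by
      simp only [Matrix.cons_val_zero, Matrix.cons_val_one, Matrix.cons_val, map_neg, map_one]
      linear_combination hd)
    have h1 := congrFun this 2
    simp at h1
  have hA : x * (aeval t b + (aeval t a + x ^ q ^ 2) * x ^ q) = -1 := by
    have e1 : x ^ q * X 0 ^ q = (X 0 ^ q) ^ q := by
      rw [← mul_pow, hxX]
    have e2 : (x ^ q) ^ q * (X 0 ^ q) ^ q = ((X 0 ^ q) ^ q) ^ q := by
      rw [← mul_pow, e1]
    have e3 := hS.rel 0
    rw [hpq3, hpq2] at e3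
    rw [hpq2 x]
    have : (x * (aeval t b + (aeval t a + (x ^ q) ^ q) * x ^ q) + 1) * X 0 = 0 := by
      linear_combination e3 + (aeval t b + (aeval t a + (x ^ q) ^ q) * x ^ q) * hxX
        + (aeval t a + (x ^ q) ^ q) * e1 + e2
    have h7 := (mul_eq_zero.mp this).resolve_right hX0
    linear_combination h7
  have hE : ∀ T : L, T ^ q ^ 3 + aeval t a * T ^ q ^ 2 + aeval t b * T ^ q + T = 0 →
      x * (((T ^ q - x * T) ^ q) ^ q + (aeval t a + (x ^ q) ^ q) * (T ^ q - x * T) ^ q) =
        T ^ q - x * T := by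
    intro T hT
    rw [hpq3, hpq2] at hT
    rw [hpq2 x] at hA
    rw [hsub, hsub, mul_pow, mul_pow]
    linear_combination x * hT - T ^ q * hA
  have hE2 : x * ((S₂ ^ q) ^ q + (aeval t a + (x ^ q) ^ q) * S₂ ^ q) = S₂ := by
    have := hE (X 1) (hS.rel 1)
    rw [← h2] at this
    exact this
  have hE3 : x * ((S₃ ^ q) ^ q + (aeval t a + (x ^ q) ^ q) * S₃ ^ q) = S₃ := by
    have := hE (X 2) (hS.rel 2)
    rw [← h3] at this
    exact this
  have hB : x * y * (aeval t a + x ^ q ^ 2 + y ^ q) = 1 := by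
    rw [hpq2 x]
    have e1 : y ^ q * S₂ ^ q = (S₂ ^ q) ^ q := by
      rw [← mul_pow, hyS]
    have : (x * y * (aeval t a + (x ^ q) ^ q + y ^ q) - 1) * S₂ = 0 := by
      linear_combination hE2 + x * (aeval t a + (x ^ q) ^ q + y ^ q) * hyS + x * e1
    have h7 := (mul_eq_zero.mp this).resolve_right hS2
    linear_combination h7
  refine ⟨hX0, hS2, hQ3, hA, hB, ?_⟩
  rw [hpq2 x] at hB ⊢
  have hQq : x * (Q₃ ^ q + (aeval t a + (x ^ q) ^ q + y ^ q) * Q₃) = 0 := by
    rw [h4, hsub, mul_pow]
    linear_combination hE3 - S₃ * hB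
  have h8 := (mul_eq_zero.mp hQq).resolve_left hx0
  rw [← hp1 Q₃] at h8
  have h9 : (Q₃ ^ (q - 1) + (aeval t a + (x ^ q) ^ q + y ^ q)) * Q₃ = 0 := by
    linear_combination h8
  have h10 := (mul_eq_zero.mp h9).resolve_right hQ3
  linear_combination h10

end Pool.CND
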